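import Pool.Agent.Y659.MPS.Stm

/-! The ranges of `x` and `y` meet. -/

set_option autoImplicit false

namespace Pool.Agent.Y661.MPS

open Matrix

theorem T : Pool.Agent.Y659.MPS.St_T := by
  intro D x y h
  have h1 : x.rank = Module.finrank ℂ (LinearMap.range x.mulVecLin) := rfl
  have h2 : y.rank = Module.finrank ℂ (LinearMap.range y.mulVecLin) := rfl
  have h3 := Submodule.finrank_sup_add_finrank_inf_eq (LinearMap.range x.mulVecLin)
    (LinearMap.range y.mulVecLin)
  have h4 : Module.finrank ℂ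
      ((LinearMap.range x.mulVecLin ⊔ LinearMap.range y.mulVecLin : Submodule ℂ (Fin D → ℂ))) ≤ D := by
    have := Submodule.finrank_le (LinearMap.range x.mulVecLin ⊔ LinearMap.range y.mulVecLin)
    simpa using this
  have hpos : 0 < Module.finrank ℂ
      ((LinearMap.range x.mulVecLin ⊓ LinearMap.range y.mulVecLin : Submodule ℂ (Fin D → ℂ))) := by
    omega
  obtain ⟨τ, hτ⟩ := (Module.finrank_pos_iff_exists_ne_zero (R := ℂ)).1 hpos
  obtain ⟨τ, hτm⟩ := τ
  obtain ⟨⟨n1, hn1⟩, ⟨n2, hn2⟩⟩ := hτm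
  rw [mulVecLin_apply] at hn1 hn2
  have hτ0 : τ ≠ 0 := by
    intro h0
    apply hτ
    exact Subtype.ext h0
  refine ⟨vecMulVec τ (fun _ => 1), vecMulVec n1 (fun _ => 1), vecMulVec n2 (fun _ => 1), ?_, ?_, ?_⟩
  · intro h0
    obtain ⟨i, hi⟩ := Function.ne_iff.1 hτ0
    have h5 := congrFun (congrFun h0 i) i
    simp only [vecMulVec_apply, mul_one, Matrix.zero_apply] at h5
    exact hi h5
  · rw [mul_vecMulVec, hn1]
  · rw [mul_vecMulVec, hn2]

end Pool.Agent.Y661.MPS
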