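import Pool.Agent.Y659.MPS.Stm

/-! The powers up to `D` have the smallest dimension (assembly). -/

set_option autoImplicit false

namespace Pool.Agent.Y661.MPS

open Matrix
open Pool.Agent.Results.MP_8bfff4_mp.ExactValue
open Pool.Agent.Y659.MPS

theorem fr_pz {D : ℕ} (hD : 1 ≤ D) (W : Submodule ℂ (Matrix (Fin D) (Fin D) ℂ)) :
    fr (W ^ 0) = 1 := by
  have : Nonempty (Fin D) := ⟨⟨0, hD⟩⟩
  rw [pow_zero, ← ln_one]
  unfold fr ln
  exact finrank_span_singleton one_ne_zero

/-- a split monic polynomial as a product over `Fin` -/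
theorem prod_form (P : Polynomial ℂ) (hP : P.Monic) :
    ∃ κ : Fin P.natDegree → ℂ, P = ∏ i, (Polynomial.X - Polynomial.C (κ i)) := by
  have hs : P.Splits := IsAlgClosed.splits P
  obtain ⟨l, hl⟩ := Quot.exists_rep P.roots
  have h1 : P = (P.roots.map (Polynomial.X - Polynomial.C ·)).prod :=
    hs.eq_prod_roots_of_monic hP
  have hl' : P.roots = (l : Multiset ℂ) := hl.symm
  have h2 : l.length = P.natDegree := by
    rw [hs.natDegree_eq_card_roots, hl', Multiset.coe_card]
  rw [hl', Multiset.map_coe, Multiset.prod_coe, ← Fin.prod_univ_fun_getElem] at h1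
  revert h2
  generalize P.natDegree = v
  intro h2
  subst h2
  exact ⟨fun i => l[i.1], h1⟩

theorem U1 (hA : St_U1A) (hG : St_U1G) (hR : St_U1R) (hF : St_U1F) : St_U1 := by
  classical
  intro D W X hE h1 h2
  have hD := hE.hD
  have hX := hE.hX
  have hXu := hE.hXu
  have : Nonempty (Fin D) := ⟨⟨0, by omega⟩⟩
  have hDD : 5 * D ≤ D * D := Nat.mul_le_mul_right D hD
  intro m hm
  rcases Nat.eq_zero_or_pos m with h0 | hm1
  · rw [h0]
    exact fr_pz (by omega) W
  have hmK : m < D * D - D + 1 := by omega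
  have hm3 := h1 m hm1 hmK
  obtain ⟨u, hu⟩ := hXu
  have hXu' : IsUnit X := ⟨u, hu⟩
  set Y : Matrix (Fin D) (Fin D) ℂ := ((u⁻¹ : (Matrix (Fin D) (Fin D) ℂ)ˣ) : Matrix (Fin D) (Fin D) ℂ)
    with hY
  have hYX : Y * X = 1 := by rw [hY, ← hu, Units.inv_mul]
  have hXY : X * Y = 1 := by rw [hY, ← hu, Units.mul_inv]
  have hcXY : Commute X Y := hXY.trans hYX.symm
  have hpow : ∀ n : ℕ, X ^ n ∈ W ^ n := fun n => Submodule.pow_mem_pow W hX n
  have hXm0 : X ^ m ≠ 0 := (hXu'.pow m).ne_zero
  have hXF : X ^ m ∈ W ^ m ⊓ LinearMap.ker (adL X) := by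
    refine ⟨hpow m, ?_⟩
    show adL X (X ^ m) = 0
    rw [adL_apply, ← pow_succ, ← pow_succ', sub_self]
  suffices hfr : fr (W ^ m ⊓ LinearMap.ker (adL X)) = 1 by omega
  have hle : ln (X ^ m) ≤ W ^ m ⊓ LinearMap.ker (adL X) := ln_le.2 hXF
  have hfr1 : fr (ln (X ^ m)) = 1 := finrank_span_singleton hXm0
  have hge : 1 ≤ fr (W ^ m ⊓ LinearMap.ker (adL X)) := by
    rw [← hfr1]
    exact fr_mono hle
  by_contra hne
  obtain ⟨z, hzF, hzn⟩ : ∃ z ∈ W ^ m ⊓ LinearMap.ker (adL X), z ∉ ln (X ^ m) := by
    by_contra hcon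
    push Not at hcon
    have := fr_mono (show W ^ m ⊓ LinearMap.ker (adL X) ≤ ln (X ^ m) from hcon)
    omega
  obtain ⟨hzW, hzk⟩ := hzF
  have hzc : z * X = X * z := by
    have hzk' : adL X z = 0 := hzk
    rw [adL_apply] at hzk'
    exact sub_eq_zero.1 hzk'
  have hYm : Y ^ m * X ^ m = 1 := by
    rw [← hcXY.symm.mul_pow, hYX, one_pow]
  have hXmY : X ^ m * Y ^ m = 1 := by
    rw [← hcXY.mul_pow, hXY, one_pow]
  obtain ⟨g, hg⟩ : ∃ g, g = Y ^ m * z := ⟨_, rfl⟩
  have hXg : X ^ m * g = z := by rw [hg, ← mul_assoc, hXmY, one_mul]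
  have hXmg : X ^ m * g ∈ W ^ m := by rw [hXg]; exact hzW
  have hcg : X * g = g * X := by
    have c1 : Commute X (Y ^ m) := hcXY.pow_right m
    have c2 : Commute X z := hzc.symm
    rw [hg]
    exact (c1.mul_right c2)
  have hcgC : Commute X g := hcg
  -- the minimal polynomial
  have hint : IsIntegral ℂ g := Algebra.IsIntegral.isIntegral g
  have hmon := minpoly.monic hint
  obtain ⟨v, κ, hv, hκ⟩ : ∃ (v : ℕ) (κ : Fin v → ℂ), (minpoly ℂ g).natDegree = v ∧
      minpoly ℂ g = ∏ i, (Polynomial.X - Polynomial.C (κ i)) := by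
    obtain ⟨κ, hκ⟩ := prod_form (minpoly ℂ g) hmon
    exact ⟨_, κ, rfl, hκ⟩
  have hv2 : 2 ≤ v := by
    by_contra hcon
    have hv0 : 0 < v := by rw [← hv]; exact minpoly.natDegree_pos hint
    have hv1 : (minpoly ℂ g).natDegree = 1 := by omega
    rw [minpoly.natDegree_eq_one_iff] at hv1
    obtain ⟨r, hr⟩ := hv1
    apply hzn
    rw [← hXg, ← hr, ln, Submodule.mem_span_singleton]
    exact ⟨r, by rw [Algebra.algebraMap_eq_smul_one, mul_smul_comm, mul_one]⟩
  have hmm : D * m ≤ D * D := Nat.mul_le_mul_left D hm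
  rcases Nat.lt_or_ge v (D - 1) with hvD | hvD
  · -- small degree
    have hP : Polynomial.aeval g (∏ i, (Polynomial.X - Polynomial.C (κ i))) = 0 := by
      rw [← hκ]
      exact minpoly.aeval ℂ g
    obtain ⟨M, hM⟩ : ∃ M, M = (v - 1) * m := ⟨_, rfl⟩
    have hMD : M ≤ (D - 3) * D := by
      rw [hM]
      exact Nat.mul_le_mul (by omega) hm
    have hD3 : (D - 3) * D + 3 * D = D * D := by
      rw [← Nat.add_mul]
      congr 1
      omega
    -- the powers of `g`
    have hgi : ∀ i : ℕ, i ≤ v - 1 → X ^ M * g ^ i ∈ W ^ M := by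
      intro i hi
      have e1 : M = (v - 1 - i) * m + m * i := by
        rw [hM, mul_comm m i, ← Nat.add_mul]
        congr 1
        omega
      have e2 : X ^ M * g ^ i = X ^ ((v - 1 - i) * m) * (X ^ m * g) ^ i := by
        have c3 : Commute (X ^ m) g := hcgC.pow_left m
        rw [c3.mul_pow, ← mul_assoc, ← pow_mul, ← pow_add, ← e1]
      rw [e2, e1, pow_add]
      refine Submodule.mul_mem_mul (hpow _) ?_
      rw [pow_mul]
      exact Submodule.pow_mem_pow _ hXmg i
    obtain ⟨Q, hQ⟩ : ∃ Q : Fin v → Polynomial ℂ, Q = fun j =>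
      ∏ i ∈ Finset.univ.erase j, (Polynomial.X - Polynomial.C (κ i)) := ⟨_, rfl⟩
    have hQm : ∀ j, (Q j).Monic := by
      intro j
      rw [hQ]
      exact Polynomial.monic_prod_of_monic _ _ fun i _ => Polynomial.monic_X_sub_C _
    have hQd : ∀ j, (Q j).natDegree = v - 1 := by
      intro j
      rw [hQ]
      simp only
      rw [Polynomial.natDegree_prod_of_monic _ _ fun i _ => Polynomial.monic_X_sub_C _]
      simp
    have hη0 : ∀ j, Polynomial.aeval g (Q j) ≠ 0 := by
      intro j h0
      have h5 := minpoly.min ℂ g (hQm j) h0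
      have h6 := Polynomial.natDegree_le_natDegree h5
      rw [hv, hQd] at h6
      omega
    have hηc : ∀ j, X * Polynomial.aeval g (Q j) = Polynomial.aeval g (Q j) * X := by
      intro j
      have c5 : Commute X (Polynomial.aeval g (Q j)) := by
        rw [Polynomial.aeval_eq_sum_range]
        exact Commute.sum_right _ _ _ fun i _ => (hcgC.pow_right i).smul_right _
      exact c5
    have hηM : ∀ j, X ^ M * Polynomial.aeval g (Q j) ∈ W ^ M := by
      intro j
      rw [Polynomial.aeval_eq_sum_range, Finset.mul_sum]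
      refine Submodule.sum_mem _ fun i hi => ?_
      rw [Finset.mem_range, hQd] at hi
      rw [mul_smul_comm]
      exact Submodule.smul_mem _ _ (hgi i (by omega))
    by_cases hr1 : ∃ j, (Polynomial.aeval g (Q j)).rank = 1
    · obtain ⟨j, hj⟩ := hr1
      have h5 := hR D W X (Polynomial.aeval g (Q j)) (D * D - D + 2) M (by omega) hX hXu' hE.htop
        (hηc j) hj (hηM j)
      exact hE.hmin (M + 2 * (D - 1)) (by omega) h5
    · push Not at hr1
      have hr2 : ∀ j, 2 ≤ (Polynomial.aeval g (Q j)).rank := by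
        intro j
        have h6 : (Polynomial.aeval g (Q j)).rank ≠ 0 := by
          intro h0
          apply hη0 j
          have e5 : Module.finrank ℂ (LinearMap.range (Polynomial.aeval g (Q j)).mulVecLin) = 0 := h0
          rw [Submodule.finrank_eq_zero, LinearMap.range_eq_bot] at e5
          rw [← Matrix.mulVecLin_zero] at e5
          exact Matrix.ext_of_mulVec_single fun i => by
            have h6 := LinearMap.congr_fun e5 (Pi.single i 1)
            rw [mulVecLin_apply, mulVecLin_apply] at h6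
            exact h6
        have := hr1 j
        omega
      have h7 : ∀ j, 2 * D ≤ fr (W ^ (2 * D - 1) * ln (Polynomial.aeval g (Q j))) := by
        intro j
        have h8 := hG D W X (Polynomial.aeval g (Q j)) (D * D - D + 2) hX hXu' hE.htop (hηc j)
          (hη0 j) (2 * D - 1)
        have h9 : 2 * D ≤ D * (Polynomial.aeval g (Q j)).rank := by
          rw [mul_comm 2 D]
          exact Nat.mul_le_mul_left D (hr2 j)
        have h10 : 2 * D - 1 + 1 = 2 * D := by omega
        rw [h10, min_eq_left h9] at h8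
        exact h8
      have h11 := hF D v (2 * D) (W ^ (2 * D - 1)) g κ hP (by
        intro j
        have := h7 j
        rw [hQ] at this
        exact this)
      have h12 : (⨆ i : Fin v, W ^ (2 * D - 1) * ln (g ^ (i : ℕ))) * ln (X ^ M) ≤
          W ^ (2 * D - 1 + M) := by
        rw [Submodule.iSup_mul]
        refine iSup_le fun i => ?_
        rw [mul_assoc, ln_mul_ln, pow_add]
        refine mul_le_mul' le_rfl (ln_le.2 ?_)
        have c4 : Commute (X ^ M) (g ^ (i : ℕ)) := (hcgC.pow_left M).pow_right _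
        rw [← c4.eq]
        exact hgi i (by omega)
      have h13 := fr_mono h12
      rw [fr_mul_ln (hXu'.pow M)] at h13
      have h14 := h2 (2 * D - 1 + M) (by omega)
      have h15 : (v - 1) * m ≤ (v - 1) * D := Nat.mul_le_mul_left _ hm
      have h16 : (v - 1) * D + D = v * D := by
        have : (v - 1) * D + D = (v - 1 + 1) * D := by ring
        rw [this]
        congr 1
        omega
      have h17 : 2 * D ≤ v * D := Nat.mul_le_mul_right D hv2
      have h18 : 2 * D * v = v * D + v * D := by ring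
      omega
  · -- large degree
    have h5 := hA D W X g m (by omega) hX hXu' hcg hXmg (by omega)
    have hD2 : (D - 2) * m + 2 * m = D * m := by
      rw [← Nat.add_mul]
      congr 1
      omega
    have h6 : (D - 2) * m < D * D - D + 1 := by
      have : (D - 2) * m ≤ (D - 2) * D := Nat.mul_le_mul_left _ hm
      have h7 : (D - 2) * D + 2 * D = D * D := by
        rw [← Nat.add_mul]
        congr 1
        omega
      omega
    have h8 : 1 ≤ (D - 2) * m := Nat.mul_pos (by omega) hm1
    have h9 := h1 ((D - 2) * m) h8 h6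
    have h10 := h2 ((D - 2) * m) h6.le
    omega

end Pool.Agent.Y661.MPS
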